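import Pool.Agent.R270.Poly.Fin

/-!
# A polyhedral space `Y` and an element of `L₁(μ, Y)` without optimal representation

The space is a renorming of `c₀` which is polyhedral and whose unit ball has a compact perfect
set of extreme points.
-/

namespace Pool.Agent.Results.MP_ace873_an.Polyhedral

open Set Filter Topology MeasureTheory Pool.Agent.R270.Poly Pool.Agent.R270.Renorm
open scoped ENNReal

/-- A real normed space is polyhedral if the closed unit ball of every finite-dimensional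
subspace is a polytope (the convex hull of a finite set). -/
def IsPolyhedral (Y : Type*) [NormedAddCommGroup Y] [NormedSpace ℝ Y] : Prop :=
  ∀ F : Submodule ℝ Y, FiniteDimensional ℝ F →
    ∃ S : Set Y, S.Finite ∧ {y : Y | y ∈ F ∧ ‖y‖ ≤ 1} = convexHull ℝ S

/-- `f ∈ L₁(μ, Y)` is norm-attaining (as an element of `L₁(μ) ⊗̂_π Y`): there are `φᵢ ∈ L₁(μ)`
and `yᵢ ∈ Y` with `f(ω) = ∑ φᵢ(ω) yᵢ` for almost every `ω` and `‖f‖ = ∑ ‖φᵢ‖₁ ‖yᵢ‖`. -/
def NormAttaining {Ω : Type*} [MeasurableSpace Ω] {μ : Measure Ω} {Y : Type*}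
    [NormedAddCommGroup Y] [NormedSpace ℝ Y] (f : Lp Y 1 μ) : Prop :=
  ∃ (φ : ℕ → Lp ℝ 1 μ) (y : ℕ → Y), HasSum (fun i => ‖φ i‖ * ‖y i‖) ‖f‖ ∧
    ∀ᵐ ω ∂μ, HasSum (fun i => (φ i : Ω → ℝ) ω • y i) ((f : Ω → Y) ω)

noncomputable section

/-- the embedding of `c₀` into `ℓ∞` defining the new norm -/
def JJ : C0 →L[ℝ] lp (fun _ : Ix => ℝ) ∞ := J φ 5 φ_le (by norm_num)

/-- the polyhedral space -/
abbrev YY : Type := LinearMap.range JJ.toLinearMap

theorem JJ_inj : Function.Injective JJ.toLinearMap := by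
  intro v w hvw
  ext i
  have : JJ v (Sum.inl i) = JJ w (Sum.inl i) := by
    rw [show JJ v = JJ w from hvw]
  exact this

instance : CompleteSpace YY :=
  completeSpace_range φ 5 φ_le (by norm_num) fun y M hM hy =>
    norm_le_of y hM fun i => hy (Sum.inl i)

/-- the linear equivalence with `c₀` -/
def eqv : C0 ≃ₗ[ℝ] YY := LinearEquiv.ofInjective JJ.toLinearMap JJ_inj

theorem eqv_coe (v : C0) : (eqv v : lp (fun _ : Ix => ℝ) ∞) = JJ v := rfl

theorem norm_eqv_le {v : C0} {M : ℝ} (hM : 0 ≤ M) (h : ∀ i, |φ i v| ≤ M) : ‖eqv v‖ ≤ M :=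
  norm_J_le φ 5 φ_le (by norm_num) hM h

theorem le_norm_eqv (v : C0) (i : Ix) : |φ i v| ≤ ‖eqv v‖ :=
  le_norm_J φ 5 φ_le (by norm_num) v i

/-- coordinate functionals on the space -/
def co (i : Ix) : YY →ₗ[ℝ] ℝ := (φ i).toLinearMap ∘ₗ eqv.symm.toLinearMap

theorem co_eqv (i : Ix) (v : C0) : co i (eqv v) = φ i v := by
  simp [co]

theorem co_le (i : Ix) (y : YY) : |co i y| ≤ ‖y‖ := by
  have := le_norm_eqv (eqv.symm y) i
  rw [LinearEquiv.apply_symm_apply] at this
  exact this

theorem φ_inl (i : ℕ) (v : C0) : φ (Sum.inl i) v = v i := rfl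

theorem φ_inr_lt {t : ℕ → Bool} {k i : ℕ} {b : Bool} (hi : i < k) (v : C0) :
    φ (Sum.inr (t, k, i, b)) v = h t k v + sg b * a k * ψ t i v := by
  simp [φ, hi]

theorem φ_inr_ge {t : ℕ → Bool} {k i : ℕ} {b : Bool} (hi : ¬ i < k) (v : C0) :
    φ (Sum.inr (t, k, i, b)) v = h t k v := by
  simp [φ, hi]

theorem φ_inr_le_of_Q {t : ℕ → Bool} {k : ℕ} {v : C0} (hQ : Q t k v) (i : ℕ) (b : Bool) :
    |φ (Sum.inr (t, k, i, b)) v| ≤ 1 := by
  by_cases hi : i < k
  · rw [φ_inr_lt hi]
    refine (abs_add_le _ _).trans ?_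
    rw [abs_mul, abs_mul, sg_abs, one_mul, abs_of_pos (a_pos k)]
    exact hQ.2 i hi
  · rw [φ_inr_ge hi]; exact hQ.1

theorem Q_of_φ {t : ℕ → Bool} {k : ℕ} {v : C0}
    (hφ : ∀ i ≤ k, ∀ b, |φ (Sum.inr (t, k, i, b)) v| ≤ 1) : Q t k v := by
  refine ⟨?_, fun i hi => ?_⟩
  · have := hφ k le_rfl true
    rwa [φ_inr_ge (lt_irrefl k)] at this
  · have h1 := hφ i hi.le true
    have h2 := hφ i hi.le false
    rw [φ_inr_lt hi] at h1 h2
    simp only [sg, if_true, if_false, Bool.false_eq_true] at h1 h2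
    rw [abs_le] at h1 h2
    have ha := a_pos k
    have e : a k * |ψ t i v| = |a k * ψ t i v| := by rw [abs_mul, abs_of_pos ha]
    rw [e]
    rcases abs_cases (h t k v) with ⟨h3, _⟩ | ⟨h3, _⟩ <;>
      rcases abs_cases (a k * ψ t i v) with ⟨h4, _⟩ | ⟨h4, _⟩ <;> rw [h3, h4] <;> linarith

theorem isPolyhedral : IsPolyhedral YY := by
  classical
  intro FY hFY
  set F : Submodule ℝ C0 := FY.map eqv.symm.toLinearMap with hF
  haveI : FiniteDimensional ℝ F := inferInstance
  obtain ⟨K, hK⟩ := exists_unif F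
  obtain ⟨I, hI⟩ := exists_coord F
  -- the finite family of functionals
  let extw : (Fin K → Bool) → (ℕ → Bool) := fun w j => if hj : j < K then w ⟨j, hj⟩ else false
  let Φ0 : Finset (YY →ₗ[ℝ] ℝ) :=
    (Finset.range I).image (fun i => co (Sum.inl i)) ∪
    (Finset.univ : Finset ((Fin K → Bool) × Fin (K + 1) × Fin (K + 1) × Bool)).image
      (fun p => co (Sum.inr (extw p.1, p.2.1, p.2.2.1, p.2.2.2)))
  let Φ : Finset (YY →ₗ[ℝ] ℝ) := Φ0 ∪ Φ0.image (fun g => -g)
  have hΦ0 : ∀ g ∈ Φ0, ∃ i, g = co i := by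
    intro g hg
    rcases Finset.mem_union.1 hg with hg | hg
    · obtain ⟨i, _, rfl⟩ := Finset.mem_image.1 hg; exact ⟨_, rfl⟩
    · obtain ⟨p, _, rfl⟩ := Finset.mem_image.1 hg; exact ⟨_, rfl⟩
  refine polytope_of_finite FY Φ ?_ ?_
  · intro g hg y _ hy
    rcases Finset.mem_union.1 hg with hg | hg
    · obtain ⟨i, rfl⟩ := hΦ0 g hg
      exact (le_abs_self _).trans ((co_le i y).trans hy)
    · obtain ⟨g', hg', rfl⟩ := Finset.mem_image.1 hg
      obtain ⟨i, rfl⟩ := hΦ0 g' hg'
      show -(co i y) ≤ 1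
      exact (neg_le_abs _).trans ((co_le i y).trans hy)
  · intro y hy hle
    have habs : ∀ g ∈ Φ0, |g y| ≤ 1 := by
      intro g hg
      rw [abs_le]
      constructor
      · have := hle (-g) (Finset.mem_union_right _ (Finset.mem_image_of_mem _ hg))
        rw [LinearMap.neg_apply] at this
        linarith
      · exact hle g (Finset.mem_union_left _ hg)
    obtain ⟨v, rfl⟩ := eqv.surjective y
    have hv : v ∈ F := ⟨eqv v, hy, by simp⟩
    have hcoord : ∀ i, |v i| ≤ 1 := by
      apply hI v hv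
      intro i hi
      have := habs (co (Sum.inl i)) (Finset.mem_union_left _
        (Finset.mem_image.2 ⟨i, Finset.mem_range.2 hi, rfl⟩))
      rwa [co_eqv] at this
    have hQ : ∀ t, ∀ k ≤ K, Q t k v := by
      intro t k hk
      have h1 : Q (extw (fun j => t j)) k v := by
        refine Q_of_φ fun i hi b => ?_
        have := habs (co (Sum.inr (extw (fun j => t j), k, i, b))) (Finset.mem_union_right _
          (Finset.mem_image.2 ⟨((fun j => t j), ⟨k, by omega⟩, ⟨i, by omega⟩, b),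
            Finset.mem_univ _, rfl⟩))
        rwa [co_eqv] at this
      refine Q_congr (fun j hj => ?_) h1
      have : j < K := by omega
      simp [extw, this]
    have hQ' := hK v hv hQ
    refine norm_eqv_le zero_le_one ?_
    rintro (i | ⟨t, k, i, b⟩)
    · exact hcoord i
    · exact φ_inr_le_of_Q (hQ' t k) i b

/-- the extreme points -/
def X (t : ℕ → Bool) : YY := eqv (x t)

theorem Q_x (t t' : ℕ → Bool) (k : ℕ) : Q t k (x t') := by
  have h1 := h_x_nonneg t t' k
  have h2 := h_x_le t t' k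
  refine ⟨by rw [abs_of_nonneg h1]; exact h2, fun i hi => ?_⟩
  have := a_ψ_x_le t t' hi
  rw [abs_of_nonneg h1]
  linarith

theorem norm_X (t : ℕ → Bool) : ‖X t‖ = 1 := by
  apply le_antisymm
  · refine norm_eqv_le zero_le_one ?_
    rintro (i | ⟨s, k, i, b⟩)
    · rw [φ_inl]
      cases i with
      | zero => simp
      | succ j =>
        rw [x_succ, abs_mul, sg_abs, mul_one, abs_of_pos (c_pos j)]
        have := c_le j
        linarith
    · exact φ_inr_le_of_Q (Q_x s t k) i b
  · have := le_norm_eqv (x t) (Sum.inl 0)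
    rw [φ_inl, x_zero, abs_one] at this
    exact this

/-- `X t` is the only point at which all the active functionals equal one -/
theorem eq_X {t : ℕ → Bool} {y : YY} (hy : ∀ k i b, co (Sum.inr (t, k, i, b)) y = 1) :
    y = X t := by
  obtain ⟨v, rfl⟩ := eqv.surjective y
  simp only [co_eqv] at hy
  have h1 : ∀ i, ψ t i v = 0 := by
    intro i
    have e1 := hy (i + 1) i true
    have e2 := hy (i + 1) i false
    rw [φ_inr_lt (Nat.lt_succ_self i)] at e1 e2
    simp only [sg, if_true, if_false, Bool.false_eq_true] at e1 e2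
    have : a (i + 1) * ψ t i v = 0 := by linarith
    rcases mul_eq_zero.1 this with h0 | h0
    · exact absurd h0 (a_pos _).ne'
    · exact h0
  have h2 := hy 0 0 true
  rw [φ_inr_ge (lt_irrefl 0), h_apply] at h2
  simp only [Finset.range_zero, Finset.sum_empty, add_zero] at h2
  have := eq_smul_x h1
  rw [h2, one_smul] at this
  rw [this]; rfl

theorem co_X (t : ℕ → Bool) (k i : ℕ) (b : Bool) : co (Sum.inr (t, k, i, b)) (X t) = 1 := by
  rw [X, co_eqv]
  by_cases hi : i < k
  · rw [φ_inr_lt hi, h_x_self, ψ_x_self]; ring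
  · rw [φ_inr_ge hi, h_x_self]

theorem X_injective : Function.Injective X := by
  intro t t' htt
  have h1 : x t = x t' := eqv.injective htt
  funext j
  have h2 : x t (j + 1) = x t' (j + 1) := by rw [h1]
  rw [x_succ, x_succ] at h2
  have h3 := mul_left_cancel₀ (c_pos j).ne' h2
  revert h3
  generalize t j = b
  generalize t' j = b'
  cases b <;> cases b' <;> simp [sg] <;> norm_num

theorem X_continuous : Continuous X := by
  have h1 : Continuous x := by
    rw [continuous_iff_continuousAt]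
    intro t
    rw [ContinuousAt, Metric.tendsto_nhds]
    intro ε hε
    obtain ⟨K, hK⟩ := exists_nat_gt (2 / ε)
    have hcK : ∀ j ≥ K, 2 * c j < ε := by
      intro j hj
      unfold c
      have : (K : ℝ) ≤ j := by exact_mod_cast hj
      rw [div_lt_iff₀ hε] at hK
      rw [mul_one_div, div_lt_iff₀ (by positivity)]
      nlinarith
    have hmem : {t' : ℕ → Bool | ∀ j < K, t' j = t j} ∈ 𝓝 t := by
      have : {t' : ℕ → Bool | ∀ j < K, t' j = t j} =
          ⋂ j ∈ Finset.range K, {t' : ℕ → Bool | t' j = t j} := by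
        ext t'; simp
      rw [this]
      refine (Filter.biInter_finset_mem _).2 fun j _ => ?_
      have hc : Continuous (fun t' : ℕ → Bool => t' j) := continuous_apply j
      exact hc.continuousAt.preimage_mem_nhds
        (show ({t j} : Set Bool) ∈ 𝓝 (t j) by simp [nhds_discrete])
    filter_upwards [hmem] with t' ht'
    rw [dist_eq_norm]
    refine lt_of_le_of_lt (norm_le_of (x t' - x t) (M := max 0 (2 * c K)) (le_max_left _ _) ?_) ?_
    · intro n
      rw [ZeroAtInftyContinuousMap.sub_apply]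
      cases n with
      | zero => simp
      | succ j =>
        rw [x_succ, x_succ]
        by_cases hj : j < K
        · rw [ht' j hj, sub_self, abs_zero]; exact le_max_left _ _
        · refine le_trans ?_ (le_max_right _ _)
          have hcj : c j ≤ c K := by
            unfold c
            apply one_div_le_one_div_of_le (by positivity)
            have : (K : ℝ) ≤ j := by exact_mod_cast (not_lt.1 hj)
            linarith
          have h3 : |c j * sg (t' j) - c j * sg (t j)| ≤ |c j * sg (t' j)| + |c j * sg (t j)| :=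
            abs_sub _ _
          rw [abs_mul, abs_mul, sg_abs, sg_abs, mul_one, abs_of_pos (c_pos j)] at h3
          linarith
    · exact max_lt hε (hcK K le_rfl)
  have h2 : Continuous (fun v : C0 => eqv v) := by
    rw [Topology.IsInducing.subtypeVal.continuous_iff]
    exact JJ.continuous
  exact h2.comp h1

/-- the coordinate functionals are continuous -/
def coL (i : Ix) : YY →L[ℝ] ℝ :=
  (co i).mkContinuous 1 fun y => by
    rw [one_mul, Real.norm_eq_abs]; exact co_le i y

theorem coL_apply (i : Ix) (y : YY) : coL i y = co i y := rfl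

/-- the point `X t` is, up to a scalar, one of the vectors of any optimal representation -/
theorem exists_of_optimal {t : ℕ → Bool} {r : ℕ → ℝ} {y : ℕ → YY}
    (h1 : HasSum (fun i => r i • y i) (X t)) (h2 : HasSum (fun i => |r i| * ‖y i‖) 1) :
    ∃ (i : ℕ) (b : Bool), X t = (sg b / ‖y i‖) • y i := by
  have key : ∀ k i b, ∀ n, r n * co (Sum.inr (t, k, i, b)) (y n) = |r n| * ‖y n‖ := by
    intro k i b n
    have e1 := (coL (Sum.inr (t, k, i, b))).hasSum h1
    simp only [map_smul, smul_eq_mul, coL_apply, co_X] at e1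
    have e2 := h2.sub e1
    rw [sub_self] at e2
    have e3 := (hasSum_zero_iff_of_nonneg (fun n => ?_)).1 e2
    · have := congrFun e3 n
      simp only [Pi.zero_apply] at this
      linarith
    · show (0 : ℝ) ≤ |r n| * ‖y n‖ - r n * co (Sum.inr (t, k, i, b)) (y n)
      have h3 : r n * co (Sum.inr (t, k, i, b)) (y n) ≤ |r n| * ‖y n‖ := by
        refine (le_abs_self _).trans ?_
        rw [abs_mul]
        exact mul_le_mul_of_nonneg_left (co_le _ _) (abs_nonneg _)
      linarith
  obtain ⟨n, hn⟩ : ∃ n, |r n| * ‖y n‖ ≠ 0 := by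
    by_contra hcon
    push Not at hcon
    have : (fun i => |r i| * ‖y i‖) = fun _ => (0 : ℝ) := funext hcon
    rw [this] at h2
    exact zero_ne_one (hasSum_zero.unique h2)
  have hr : r n ≠ 0 := by
    rintro h0; exact hn (by rw [h0, abs_zero, zero_mul])
  have hy : ‖y n‖ ≠ 0 := by
    rintro h0; exact hn (by rw [h0, mul_zero])
  refine ⟨n, decide (0 < r n), ?_⟩
  have hsg : sg (decide (0 < r n)) * |r n| = r n := by
    rcases lt_or_gt_of_ne hr with h0 | h0
    · have : decide (0 < r n) = false := by simp [h0.le]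
      rw [this, abs_of_neg h0]; simp [sg]
    · have : decide (0 < r n) = true := by simp [h0]
      rw [this, abs_of_pos h0]; simp [sg]
  symm
  apply eq_X
  intro k i b
  rw [map_smul, smul_eq_mul]
  have h3 := key k i b n
  have h4 : |r n| ≠ 0 := abs_ne_zero.2 hr
  rw [← hsg] at h3
  rw [abs_mul, sg_abs, one_mul, abs_abs] at h3
  have h5 : sg (decide (0 < r n)) * co (Sum.inr (t, k, i, b)) (y n) = ‖y n‖ := by
    apply mul_left_cancel₀ h4
    linarith
  rw [div_mul_eq_mul_div, h5, div_self hy]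

/-- the measure: Lebesgue measure on the unit interval -/
abbrev mu : Measure ℝ := volume.restrict (Set.Icc (0 : ℝ) 1)

theorem mu_univ : mu Set.univ = 1 := by
  simp [mu]

instance : IsProbabilityMeasure mu := ⟨mu_univ⟩

/-- a Borel isomorphism of the line with the Cantor space -/
def gg : ℝ ≃ᵐ (ℕ → Bool) :=
  PolishSpace.measurableEquivNatBoolOfNotCountable (not_countable_iff.2 inferInstance)

/-- the counterexample, as a function -/
def GG (ω : ℝ) : YY := X (gg ω)

theorem GG_sm : StronglyMeasurable GG :=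
  X_continuous.stronglyMeasurable.comp_measurable gg.measurable

theorem GG_memLp : MemLp GG 1 mu :=
  MemLp.of_bound GG_sm.aestronglyMeasurable 1 (Eventually.of_forall fun ω => (norm_X _).le)

/-- the counterexample -/
def ff : Lp YY 1 mu := GG_memLp.toLp GG

theorem ff_ae : (ff : ℝ → YY) =ᵐ[mu] GG := GG_memLp.coeFn_toLp

theorem norm_ff : ‖ff‖ = 1 := by
  rw [ff, Lp.norm_toLp, eLpNorm_one_eq_lintegral_enorm]
  have : ∀ ω, ‖GG ω‖ₑ = 1 := by
    intro ω
    rw [← ofReal_norm_eq_enorm, GG, norm_X, ENNReal.ofReal_one]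
  simp only [this]
  rw [lintegral_one, mu_univ, ENNReal.toReal_one]

theorem not_normAttaining : ¬ NormAttaining ff := by
  rintro ⟨φ, y, hsum, hae⟩
  rw [norm_ff] at hsum
  -- the integral of the sum of the norms
  have hint : ∫⁻ ω, ∑' i, ‖(φ i : ℝ → ℝ) ω‖ₑ * ‖y i‖ₑ ∂mu = 1 := by
    rw [lintegral_tsum (fun i => ((Lp.stronglyMeasurable (φ i)).enorm.mul_const _).aemeasurable)]
    have h1 : ∀ i, ∫⁻ ω, ‖(φ i : ℝ → ℝ) ω‖ₑ * ‖y i‖ₑ ∂mu = ENNReal.ofReal (‖φ i‖ * ‖y i‖) := by
      intro i
      rw [lintegral_mul_const _ (Lp.stronglyMeasurable (φ i)).enorm, ENNReal.ofReal_mul (norm_nonneg _),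
        ofReal_norm_eq_enorm, ofReal_norm_eq_enorm, Lp.enorm_def, eLpNorm_one_eq_lintegral_enorm]
    simp only [h1]
    rw [← ENNReal.ofReal_tsum_of_nonneg (fun i => by positivity) hsum.summable, hsum.tsum_eq,
      ENNReal.ofReal_one]
  have hle : ∀ᵐ ω ∂mu, (1 : ℝ≥0∞) ≤ ∑' i, ‖(φ i : ℝ → ℝ) ω‖ₑ * ‖y i‖ₑ := by
    filter_upwards [hae, ff_ae] with ω h1 h2
    have h3 : ‖(ff : ℝ → YY) ω‖ₑ = 1 := by
      rw [h2, ← ofReal_norm_eq_enorm, GG, norm_X, ENNReal.ofReal_one]
    refine h3.symm.le.trans ?_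
    rw [← h1.tsum_eq]
    refine (enorm_tsum_le_tsum_enorm).trans ?_
    refine ENNReal.tsum_le_tsum fun i => ?_
    have e : ∀ (r : ℝ) (v : YY), ‖r • v‖ₑ ≤ ‖r‖ₑ * ‖v‖ₑ := by
      intro r v
      rw [← ofReal_norm_eq_enorm, norm_smul, ENNReal.ofReal_mul (norm_nonneg _),
        ofReal_norm_eq_enorm, ofReal_norm_eq_enorm]
    exact e _ _
  have heq : ∀ᵐ ω ∂mu, (1 : ℝ≥0∞) = ∑' i, ‖(φ i : ℝ → ℝ) ω‖ₑ * ‖y i‖ₑ := by
    refine ae_eq_of_ae_le_of_lintegral_le hle ?_ ?_ ?_
    · rw [lintegral_one, mu_univ]; exact ENNReal.one_ne_top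
    · exact (Measurable.ennreal_tsum fun i =>
        (Lp.stronglyMeasurable (φ i)).enorm.mul_const _).aemeasurable
    · rw [hint, lintegral_one, mu_univ]
  -- almost every value is a multiple of one of countably many vectors
  set C : Set YY := Set.range (fun p : ℕ × Bool => (sg p.2 / ‖y p.1‖) • y p.1) with hC
  have hCc : C.Countable := Set.countable_range _
  have hpre : (GG ⁻¹' C).Countable :=
    hCc.preimage (X_injective.comp gg.injective)
  have hmem : ∀ᵐ ω ∂mu, ω ∈ GG ⁻¹' C := by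
    filter_upwards [hae, ff_ae, heq] with ω h1 h2 h3
    rw [h2] at h1
    have h4 : HasSum (fun i => |(φ i : ℝ → ℝ) ω| * ‖y i‖) 1 := by
      have h5 : ∀ i, ‖(φ i : ℝ → ℝ) ω‖ₑ * ‖y i‖ₑ =
          ENNReal.ofReal (|(φ i : ℝ → ℝ) ω| * ‖y i‖) := by
        intro i
        rw [ENNReal.ofReal_mul (abs_nonneg _), ofReal_norm_eq_enorm, ← Real.norm_eq_abs,
          ofReal_norm_eq_enorm]
      simp only [h5] at h3
      have hne : ∑' i, ENNReal.ofReal (|(φ i : ℝ → ℝ) ω| * ‖y i‖) ≠ ∞ := by
        rw [← h3]; exact ENNReal.one_ne_top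
      have hs : Summable (fun i => |(φ i : ℝ → ℝ) ω| * ‖y i‖) := by
        have := ENNReal.summable_toReal hne
        refine this.congr fun i => ?_
        rw [ENNReal.toReal_ofReal (by positivity)]
      have h6 : ∑' i, |(φ i : ℝ → ℝ) ω| * ‖y i‖ = 1 := by
        rw [← ENNReal.ofReal_tsum_of_nonneg (fun i => by positivity) hs] at h3
        have h7 : (0 : ℝ) ≤ ∑' i, |(φ i : ℝ → ℝ) ω| * ‖y i‖ := tsum_nonneg fun i => by positivity
        have := congrArg ENNReal.toReal h3
        rw [ENNReal.toReal_ofReal h7, ENNReal.toReal_one] at this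
        exact this.symm
      rw [← h6]
      exact hs.hasSum
    obtain ⟨i, b, hib⟩ := exists_of_optimal h1 h4
    exact ⟨(i, b), hib.symm⟩
  have h0 : mu (GG ⁻¹' C) = 0 := hpre.measure_zero mu
  have h1 : mu (GG ⁻¹' C) = 1 := by
    rw [← mu_univ]
    exact measure_congr (eventuallyEq_univ.2 hmem)
  rw [h0] at h1
  exact zero_ne_one h1

end

/-- There are a real polyhedral Banach space `Y` and an element of `L₁([0,1], Y)` which admits no
optimal representation, i.e. is not norm-attaining in `L₁([0,1]) ⊗̂_π Y`. -/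
theorem result : ∃ (Y : Type) (_ : NormedAddCommGroup Y) (_ : NormedSpace ℝ Y)
    (_ : CompleteSpace Y), IsPolyhedral Y ∧
    ∃ f : Lp Y 1 (volume.restrict (Set.Icc (0 : ℝ) 1)), ¬ NormAttaining f :=
  ⟨YY, inferInstance, inferInstance, inferInstance, isPolyhedral, ff, not_normAttaining⟩

end Pool.Agent.Results.MP_ace873_an.Polyhedral
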